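import Pool.Agent.helper32.QS.Spec

set_option autoImplicit false

namespace QS

theorem PNU_dvd_pow_cases {q a f : ℕ} (hq : q.Prime) (h : f ∣ q ^ a) : f = 1 ∨ q ∣ f := by
  obtain ⟨i, _, rfl⟩ := (Nat.dvd_prime_pow hq).1 h
  rcases Nat.eq_zero_or_pos i with hi | hi
  · left; simp [hi]
  · right; exact dvd_pow_self q (by omega)

theorem PNU_one (p q a f t : ℕ) (hp : p.Prime) (hp5 : 5 ≤ p) (hq : q.Prime) (_hpq : p ≠ q)
    (hft : f * t = q ^ a) (ht1 : 1 < t) (htp : t % p = 1) :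
    11 * (f + (q ^ a - f) / p) ≤ 3 * q ^ a ∧ (p ≤ f + 1 → 64 ≤ q ^ a) := by
  obtain ⟨s, hs⟩ : ∃ s, t = p * s + 1 := ⟨t / p, by have := Nat.div_add_mod t p; omega⟩
  have hs0 : s ≠ 0 := by rintro rfl; simp at hs; omega
  have hs1 : 1 ≤ s := Nat.one_le_iff_ne_zero.2 hs0
  have hp0 : 0 < p := by omega
  -- s = 1, p = 5 impossible
  have h6 : ¬ (p = 5 ∧ s = 1) := by
    rintro ⟨rfl, rfl⟩
    have ht : t ∣ q ^ a := Dvd.intro_left f hft
    rw [hs] at ht
    have h2 : 2 ∣ q := Nat.prime_two.dvd_of_dvd_pow (dvd_trans (by norm_num) ht)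
    have h3 : 3 ∣ q := Nat.prime_three.dvd_of_dvd_pow (dvd_trans (by norm_num) ht)
    rw [Nat.prime_dvd_prime_iff_eq Nat.prime_two hq] at h2
    rw [Nat.prime_dvd_prime_iff_eq Nat.prime_three hq] at h3
    omega
  have hdiv : (q ^ a - f) / p = f * s := by
    have : q ^ a - f = p * (f * s) := by
      rw [← hft, hs, Nat.mul_add, Nat.mul_one, Nat.add_sub_cancel]; ring
    rw [this, Nat.mul_div_cancel_left _ hp0]
  have hne6 : p ≠ 6 := by rintro rfl; exact absurd hp (by norm_num)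
  have hkey : 8 + 11 * s ≤ 3 * p * s := by
    rcases Nat.lt_or_ge p 7 with h7 | h7
    · have hp5' : p = 5 := by omega
      have : s ≠ 1 := fun h => h6 ⟨hp5', h⟩
      subst hp5'
      omega
    · nlinarith [Nat.mul_le_mul h7 hs1, Nat.mul_le_mul_right s h7]
  refine ⟨?_, ?_⟩
  · rw [hdiv, ← hft, hs]
    nlinarith [Nat.mul_le_mul_left f hkey]
  · intro hpf
    have hft' : f * (p * s + 1) = q ^ a := by rw [← hs]; exact hft
    have hfd : f ∣ q ^ a := Dvd.intro _ hft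
    have htd : t ∣ q ^ a := Dvd.intro_left f hft
    rcases Nat.lt_or_ge p 7 with h7 | h7
    · have hp5' : p = 5 := by omega
      subst hp5'
      have : s ≠ 1 := fun h => h6 ⟨rfl, h⟩
      rcases Nat.lt_or_ge s 3 with h3 | h3
      · have hs2 : s = 2 := by omega
        subst hs2
        have h11 : q = 11 := by
          have : 11 ∣ q := (by norm_num : Nat.Prime 11).dvd_of_dvd_pow
            (dvd_trans (by rw [hs]) htd)
          exact ((Nat.prime_dvd_prime_iff_eq (by norm_num) hq).1 this).symm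
        rcases PNU_dvd_pow_cases hq hfd with h | h
        · omega
        · have := Nat.le_of_dvd (by omega) h
          rw [← hft', h11] at *
          omega
      · rw [← hft']
        nlinarith [Nat.mul_le_mul (show 4 ≤ f by omega) (show 16 ≤ 5 * s + 1 by omega)]
    · rcases Nat.lt_or_ge p 8 with h8 | h8
      · have hp7 : p = 7 := by omega
        subst hp7
        rcases Nat.lt_or_ge s 2 with h2 | h2
        · have hs1' : s = 1 := by omega
          subst hs1'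
          have hq2 : q = 2 := by
            have : 2 ∣ q := Nat.prime_two.dvd_of_dvd_pow (dvd_trans (by rw [hs]; norm_num) htd)
            exact ((Nat.prime_dvd_prime_iff_eq Nat.prime_two hq).1 this).symm
          subst hq2
          obtain ⟨i, _, hi⟩ := (Nat.dvd_prime_pow Nat.prime_two).1 hfd
          have h3i : 3 ≤ i := by
            by_contra hlt
            have : i = 0 ∨ i = 1 ∨ i = 2 := by omega
            rcases this with h | h | h <;> subst h <;> omega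
          have : 2 ^ 3 ≤ 2 ^ i := Nat.pow_le_pow_right (by norm_num) h3i
          rw [← hft', hi]; omega
        · rw [← hft']
          nlinarith [Nat.mul_le_mul (show 6 ≤ f by omega) (show 15 ≤ 7 * s + 1 by omega)]
      · have hp11 : 10 ≤ p := by
          rcases Nat.lt_or_ge p 10 with h | h
          · exfalso
            have : p = 8 ∨ p = 9 := by omega
            rcases this with h | h <;> subst h <;> exact absurd hp (by norm_num)
          · exact h
        rw [← hft']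
        have h1 : 11 ≤ p * s + 1 := by nlinarith [Nat.mul_le_mul hp11 hs1]
        nlinarith [Nat.mul_le_mul (show 9 ≤ f by omega) h1]

theorem PNU_exp1 (a : ℕ) (ha : 6 ≤ a) : 11 * (a * a + a + 1) < 8 * 2 ^ a := by
  induction a, ha using Nat.le_induction with
  | base => norm_num
  | succ n hn ih =>
    rw [pow_succ]
    nlinarith

theorem PNU_exp2 (l : ℕ) (hl : 6 ≤ l) : 11 * ((2 * l + 4) * (l + 1)) + 33 ≤ 24 * 2 ^ l := by
  induction l, hl using Nat.le_induction with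
  | base => norm_num
  | succ n hn ih =>
    rw [pow_succ]
    nlinarith

theorem PNU_two (q a c : ℕ) (hq : q.Prime) (h64 : 64 ≤ q ^ a) (hc : 11 * c ≤ 3 * q ^ a) :
    (q ^ a) ^ (a + 1) * 2 ^ c < 2 ^ (q ^ a - 1) := by
  rcases Nat.lt_or_ge q 3 with h3 | h3
  · have hq2 : q = 2 := by have := hq.two_le; omega
    subst hq2
    have ha : 6 ≤ a := by
      by_contra h
      have : 2 ^ a < 2 ^ 6 := Nat.pow_lt_pow_right (by norm_num) (by omega)
      omega
    have h1 := PNU_exp1 a ha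
    rw [← pow_mul, ← pow_add]
    apply Nat.pow_lt_pow_right (by norm_num)
    have h2 : a * (a + 1) + c + 1 < 2 ^ a := by nlinarith
    omega
  · set l := Nat.log 2 (q ^ a) with hl
    have hk0 : q ^ a ≠ 0 := by omega
    have hlo : 2 ^ l ≤ q ^ a := Nat.pow_log_le_self 2 hk0
    have hhi : q ^ a < 2 ^ (l + 1) := Nat.lt_pow_succ_log_self (by norm_num) _
    have hl6 : 6 ≤ l := by
      by_contra h
      have : 2 ^ (l + 1) ≤ 2 ^ 6 := Nat.pow_le_pow_right (by norm_num) (by omega)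
      omega
    have h3a : 3 ^ a < 2 ^ (l + 1) := lt_of_le_of_lt (Nat.pow_le_pow_left h3 a) hhi
    have h3a2 : 2 ^ (3 * a) < 2 ^ (2 * (l + 1)) := by
      calc 2 ^ (3 * a) = 8 ^ a := by rw [pow_mul]; norm_num
        _ ≤ 9 ^ a := Nat.pow_le_pow_left (by norm_num) a
        _ = (3 ^ a) ^ 2 := by rw [← pow_mul, mul_comm, pow_mul]; norm_num
        _ < (2 ^ (l + 1)) ^ 2 := Nat.pow_lt_pow_left h3a (by norm_num)
        _ = 2 ^ (2 * (l + 1)) := by rw [← pow_mul, mul_comm]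
    have h3a3 : 3 * a < 2 * (l + 1) := (Nat.pow_lt_pow_iff_right (by norm_num)).1 h3a2
    have h2 := PNU_exp2 l hl6
    have h4 : 3 * ((a + 1) * (l + 1)) ≤ (2 * l + 4) * (l + 1) := by
      have : 3 * (a + 1) ≤ 2 * l + 4 := by omega
      nlinarith [Nat.mul_le_mul_right (l + 1) this]
    have h5 : (l + 1) * (a + 1) + c ≤ q ^ a - 1 := by
      have : (l + 1) * (a + 1) + c + 1 ≤ q ^ a := by nlinarith
      omega
    calc (q ^ a) ^ (a + 1) * 2 ^ c < (2 ^ (l + 1)) ^ (a + 1) * 2 ^ c :=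
          Nat.mul_lt_mul_of_pos_right (Nat.pow_lt_pow_left hhi (by omega)) (by positivity)
      _ = 2 ^ ((l + 1) * (a + 1) + c) := by rw [← pow_mul, ← pow_add]
      _ ≤ 2 ^ (q ^ a - 1) := Nat.pow_le_pow_right (by norm_num) h5

theorem PNU_cube (p : ℕ) (hp : 5 ≤ p) : p ^ 3 ≤ 2 ^ (p + 2) := by
  induction p, hp using Nat.le_induction with
  | base => norm_num
  | succ n hn ih =>
    have h1 : (n + 1) ^ 3 ≤ 2 * n ^ 3 := by
      have : 25 ≤ n * n := Nat.mul_le_mul hn hn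
      nlinarith [Nat.mul_le_mul_left (n * n) hn, Nat.mul_le_mul_left n hn]
    calc (n + 1) ^ 3 ≤ 2 * n ^ 3 := h1
      _ ≤ 2 * 2 ^ (n + 2) := Nat.mul_le_mul_left 2 ih
      _ = 2 ^ (n + 1 + 2) := by ring

theorem PNU_exp3 (m b : ℕ) :
    (m + 7) * ((b + 2) * (b + 3)) + 3 < 3 * (m + 5) ^ b * ((m + 4) * (m + 4)) := by
  induction b with
  | zero => nlinarith [Nat.zero_le (m * m)]
  | succ n ih =>
    have h1 : (m + 7) * ((n + 1 + 2) * (n + 1 + 3)) + 3 ≤
        (m + 5) * ((m + 7) * ((n + 2) * (n + 3)) + 3) := by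
      have h2 : (n + 1 + 2) * (n + 1 + 3) ≤ 5 * ((n + 2) * (n + 3)) := by nlinarith
      have h3 : (m + 7) * ((n + 1 + 2) * (n + 1 + 3)) ≤ (m + 7) * (5 * ((n + 2) * (n + 3))) :=
        Nat.mul_le_mul_left _ h2
      have h4 : 5 * ((m + 7) * ((n + 2) * (n + 3)) + 3) ≤
          (m + 5) * ((m + 7) * ((n + 2) * (n + 3)) + 3) :=
        Nat.mul_le_mul_right _ (by omega)
      nlinarith
    calc (m + 7) * ((n + 1 + 2) * (n + 1 + 3)) + 3
        ≤ (m + 5) * ((m + 7) * ((n + 2) * (n + 3)) + 3) := h1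
      _ < (m + 5) * (3 * (m + 5) ^ n * ((m + 4) * (m + 4))) :=
          Nat.mul_lt_mul_of_pos_left ih (by omega)
      _ = 3 * (m + 5) ^ (n + 1) * ((m + 4) * (m + 4)) := by ring

theorem PNU_three (p a c : ℕ) (_hp : p.Prime) (hp5 : 5 ≤ p) (ha : 2 ≤ a)
    (hc : p ^ 2 * c ≤ (2 * p - 1) * p ^ a) :
    (p ^ a) ^ (a + 1) * 2 ^ c < 2 ^ (p ^ a - 1) := by
  obtain ⟨m, rfl⟩ : ∃ m, p = m + 5 := ⟨p - 5, by omega⟩
  obtain ⟨b, rfl⟩ : ∃ b, a = b + 2 := ⟨a - 2, by omega⟩
  have hcb : c ≤ (2 * m + 9) * (m + 5) ^ b := by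
    have h1 : 2 * (m + 5) - 1 = 2 * m + 9 := by omega
    rw [h1] at hc
    have h2 : (m + 5) ^ 2 * c ≤ (m + 5) ^ 2 * ((2 * m + 9) * (m + 5) ^ b) := by
      calc (m + 5) ^ 2 * c ≤ (2 * m + 9) * (m + 5) ^ (b + 2) := hc
        _ = (m + 5) ^ 2 * ((2 * m + 9) * (m + 5) ^ b) := by ring
    exact Nat.le_of_mul_le_mul_left h2 (by positivity)
  have h3 := PNU_exp3 m b
  have hcube := PNU_cube (m + 5) (by omega)
  set P := (m + 5) ^ b with hP
  have hpow : (m + 5) ^ (b + 2) = (m + 5) * (m + 5) * P := by rw [hP]; ring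
  have hmain : (m + 7) * ((b + 2) * (b + 3)) + 3 * c + 3 < 3 * ((m + 5) ^ (b + 2)) := by
    rw [hpow]
    nlinarith
  have hlt : ((m + 5 : ℕ) ^ (b + 2)) ≥ 1 := Nat.one_le_pow _ _ (by omega)
  have hmain2 : (m + 7) * ((b + 2) * (b + 3)) + 3 * c < 3 * ((m + 5) ^ (b + 2) - 1) := by omega
  -- compare cubes
  have hcubes : (((m + 5) ^ (b + 2)) ^ (b + 2 + 1) * 2 ^ c) ^ 3 <
      (2 ^ ((m + 5) ^ (b + 2) - 1)) ^ 3 := by
    calc (((m + 5) ^ (b + 2)) ^ (b + 2 + 1) * 2 ^ c) ^ 3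
        = ((m + 5) ^ 3) ^ ((b + 2) * (b + 3)) * 2 ^ (3 * c) := by
          rw [mul_pow, ← pow_mul, ← pow_mul, ← pow_mul, ← pow_mul]
          congr 1
          · congr 1; ring
          · congr 1; ring
      _ ≤ (2 ^ (m + 5 + 2)) ^ ((b + 2) * (b + 3)) * 2 ^ (3 * c) :=
          Nat.mul_le_mul_right _ (Nat.pow_le_pow_left hcube _)
      _ = 2 ^ ((m + 7) * ((b + 2) * (b + 3)) + 3 * c) := by
          rw [← pow_mul, ← pow_add]
      _ < 2 ^ (3 * ((m + 5) ^ (b + 2) - 1)) := Nat.pow_lt_pow_right (by norm_num) hmain2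
      _ = (2 ^ ((m + 5) ^ (b + 2) - 1)) ^ 3 := by rw [← pow_mul, mul_comm]
  exact lt_of_pow_lt_pow_left₀ 3 (by positivity) hcubes

theorem PNU : PNU_stmt := ⟨PNU_one, PNU_two, PNU_three⟩

end QS
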